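import Pool.Agent.Y631.WcSup

/-!
Word circuits whose items are grouped.
-/

set_option autoImplicit false

open Finset

namespace Pool.Agent.K7.H45.ADJ

open Pool.Agent.Y631.Wc

/-- The circuit whose items are the contents of groups of places. -/
def regroup {ι ι' X Z : Type} (C : WCirc ι X Z) (grp : ι → ι') : WCirc ι' (ι → X) Z where
  size := C.size
  vars := C.vars
  gates := C.gates
  vsrc := fun g a => grp (C.vsrc g a)
  gsrc := C.gsrc
  rel := fun g U V z => C.rel g (fun a => U a (C.vsrc g a)) V z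
  out := C.out
  acc := C.acc
  acyclic := C.acyclic

theorem accepts_regroup {ι ι' X Z : Type} (C : WCirc ι X Z) (grp : ι → ι') (x : ι' → ι → X) :
    (regroup C grp).Accepts x ↔ C.Accepts (fun p => x (grp p) p) := Iff.rfl

/-- The bounds with groups of places. -/
theorem bounds_grp {ι ι' X Z : Type} [Fintype Z] [DecidableEq ι'] (C : WCirc ι X Z) (grp : ι → ι')
    {κ θ M m r K L k q : ℕ} (hr : 1 ≤ r) (hκ : C.FanIn κ) (hθ : C.TreewidthLE θ)
    (hR : C.reads ≤ r * m) (X1 X2 : Finset ι') (hX : Disjoint X1 X2) (hX1 : X1.card = M)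
    (hX2 : X2.card = M) (hm : m ≤ 3 * M) (hM : 24 * r ≤ M)
    (hK : K = 10000 * r ^ 2 * (κ + 1) * (θ + 1)) (hk : 4 ^ (12 * r) * k ≤ M) (hq : 2 ≤ q)
    (hqL : q ≤ L) (hZ : Fintype.card Z ≤ L) (F Good : (ι → X) → Prop)
    (hinst : ∀ A ⊆ X1, ∀ E ⊆ X2, k ≤ A.card → k ≤ E.card →
      ∃ inst : (Fin k → Fin q) → (Fin k → Fin q) → ι → X,
        (∀ a b b' p, grp p ∉ E → inst a b p = inst a b' p) ∧
        (∀ a a' b p, grp p ∉ A → inst a b p = inst a' b p) ∧ (∀ a b, Good (inst a b)) ∧
        ∀ a b, F (inst a b) ↔ ∀ j, a j ≠ b j) :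
    ((∀ x, Good x → (C.Accepts x ↔ F x)) → 2 ^ k ≤ L ^ K) ∧
    (C.Unambiguous → (∀ x, Good x → (C.Accepts x ↔ F x)) → q ^ k ≤ L ^ K) ∧
    (C.Unambiguous → (∀ x, Good x → (C.Accepts x ↔ ¬ F x)) → q ^ k ≤ L ^ K + 1) := by
  classical
  have h := bounds (regroup C grp) (κ := κ) (θ := θ) (M := M) (m := m) (r := r) (K := K) (L := L)
    (k := k) (q := q) hr hκ hθ hR X1 X2 hX hX1 hX2 hm hM hK hk hq hqL hZ
    (fun x => F (fun p => x (grp p) p)) (fun x => Good (fun p => x (grp p) p))
    (fun A hA E hE hkA hkE => by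
      obtain ⟨inst, h1, h2, h3, h4⟩ := hinst A hA E hE hkA hkE
      let a0 : Fin k → Fin q := fun _ => ⟨0, by omega⟩
      have e : ∀ a b, (fun p => (fun (i : ι') (p' : ι) =>
          if grp p' = i then inst a b p' else inst a0 a0 p') (grp p) p) = inst a b := by
        intro a b
        funext p
        simp
      refine ⟨fun a b i p => if grp p = i then inst a b p else inst a0 a0 p, ?_, ?_, ?_, ?_⟩
      · intro a b b' i hi
        funext p
        by_cases hp : grp p = i
        · simp only [if_pos hp]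
          exact h1 a b b' p (by rw [hp]; exact hi)
        · simp only [if_neg hp]
      · intro a a' b i hi
        funext p
        by_cases hp : grp p = i
        · simp only [if_pos hp]
          exact h2 a a' b p (by rw [hp]; exact hi)
        · simp only [if_neg hp]
      · intro a b
        show Good _
        rw [e]
        exact h3 a b
      · intro a b
        show F _ ↔ _
        rw [e]
        exact h4 a b)
  refine ⟨fun hC => h.1 (fun x hx => hC _ hx), 
    fun hU hC => h.2.1 (fun x => hU (fun p => x (grp p) p)) (fun x hx => hC _ hx),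
    fun hU hC => h.2.2 (fun x => hU (fun p => x (grp p) p)) (fun x hx => hC _ hx)⟩

end Pool.Agent.K7.H45.ADJ
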