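import Pool.Agent.K7.H45.ADJ.Grp

/-!
Adjacency lists with few variable places.
-/

set_option autoImplicit false

open Finset

namespace Pool.Agent.K7.H45.ADJ

/-- The places of the input: the offsets `0, …, n` and the `2 m` entries of the adjacency lists. -/
abbrev Place (n m : ℕ) : Type := Fin (n + 1) ⊕ Fin (2 * m)

/-- `x` describes a simple graph with the vertices `0, …, n - 1` and `m` edges by its adjacency
lists: the entries are the pairs `(v, w)` of adjacent vertices in the lexicographic order (that is,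
first the neighbours `w` of the vertex `0` in increasing order, then those of the vertex `1`, and so
on), and the offset of `v` is the number of the entries before the list of `v`. -/
structure IsAdj {n m : ℕ} (x : Place n m → ℕ × ℕ) : Prop where
  sorted : ∀ i j : Fin (2 * m), i < j → (x (Sum.inr i)).1 < (x (Sum.inr j)).1 ∨
    (x (Sum.inr i)).1 = (x (Sum.inr j)).1 ∧ (x (Sum.inr i)).2 < (x (Sum.inr j)).2
  vertex : ∀ i : Fin (2 * m), (x (Sum.inr i)).1 < n ∧ (x (Sum.inr i)).2 < n
  loopless : ∀ i : Fin (2 * m), (x (Sum.inr i)).1 ≠ (x (Sum.inr i)).2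
  symm : ∀ i : Fin (2 * m), ∃ j : Fin (2 * m),
    x (Sum.inr j) = ((x (Sum.inr i)).2, (x (Sum.inr i)).1)
  offset : ∀ v : Fin (n + 1), x (Sum.inl v) =
    (v.1, (univ.filter (fun i : Fin (2 * m) => (x (Sum.inr i)).1 < v.1)).card)

/-- The graph has a triangle with the vertices `a < b < c`. -/
def HasTriangle {n m : ℕ} (x : Place n m → ℕ × ℕ) : Prop :=
  ∃ a b c : ℕ, a < b ∧ b < c ∧ (∃ i, x (Sum.inr i) = (a, b)) ∧ (∃ i, x (Sum.inr i) = (a, c)) ∧
    ∃ i, x (Sum.inr i) = (b, c)

/-- The groups of places; `none` for the other places. -/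
def grp (n m M : ℕ) : Place n m → Option ℕ
  | Sum.inl _ => none
  | Sum.inr p =>
    if p.1 < M then some p.1 else if p.1 < 2 * M then some (p.1 - M) else
      if p.1 < 5 * M then (if (p.1 - 2 * M) % 3 = 2 then none else some ((p.1 - 2 * M) / 3))
      else none

section Ent

variable {k M m : ℕ} (σ : ℕ → Option (Fin k ⊕ Fin k)) (α η : Fin k → ℕ)

/-- The chosen groups. -/
structure Pl (M : ℕ) : Prop where
  la : ∀ j, α j < M
  le : ∀ j, η j < M
  sa : ∀ j, σ (α j) = some (Sum.inl j)
  se : ∀ j, σ (η j) = some (Sum.inr j)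
  ia : ∀ i j, σ i = some (Sum.inl j) → i = α j
  ie : ∀ i j, σ i = some (Sum.inr j) → i = η j

variable (a b : Fin k → Fin 2)

/-- The bit of a group. -/
def bit (i : ℕ) : ℕ := match σ i with
  | none => 0
  | some (Sum.inl j) => (a j).1
  | some (Sum.inr j) => (b j).1

/-- The partner of `3 + 2 i`. -/
def prt (M i : ℕ) : ℕ := match σ i with
  | none => 2 + 2 * M + i
  | some (Sum.inl j) => 3 + 2 * η j
  | some (Sum.inr j) => 3 + 2 * α j

theorem bit_le (i : ℕ) : bit σ a b i ≤ 1 := by
  unfold bit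
  rcases σ i with _ | j | j
  · simp
  · have := (a j).2; simp only; omega
  · have := (b j).2; simp only; omega

/-- The entries in the lists of the other vertices. -/
def rest (M m : ℕ) : Finset (ℕ ×ₗ ℕ) :=
  ((range M).filter (fun i => σ i = none)).image (fun i => toLex (2 + 2 * M + i, 3 + 2 * i)) ∪
    ((range (m - 3 * M + k)).image (fun e => toLex (2 + 3 * M + 2 * e, 3 + 3 * M + 2 * e)) ∪
    (range (m - 3 * M + k)).image (fun e => toLex (3 + 3 * M + 2 * e, 2 + 3 * M + 2 * e)))

theorem mem_rest {y : ℕ ×ₗ ℕ} : y ∈ rest σ M m ↔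
    (∃ i < M, σ i = none ∧ y = toLex (2 + 2 * M + i, 3 + 2 * i)) ∨
    (∃ e < m - 3 * M + k, y = toLex (2 + 3 * M + 2 * e, 3 + 3 * M + 2 * e)) ∨
    (∃ e < m - 3 * M + k, y = toLex (3 + 3 * M + 2 * e, 2 + 3 * M + 2 * e)) := by
  unfold rest
  simp only [mem_union, mem_image, mem_filter, mem_range]
  constructor
  · rintro (⟨i, ⟨h1, h2⟩, rfl⟩ | ⟨e, h1, rfl⟩ | ⟨e, h1, rfl⟩)
    · exact Or.inl ⟨i, h1, h2, rfl⟩
    · exact Or.inr (Or.inl ⟨e, h1, rfl⟩)
    · exact Or.inr (Or.inr ⟨e, h1, rfl⟩)
  · rintro (⟨i, h1, h2, rfl⟩ | ⟨e, h1, rfl⟩ | ⟨e, h1, rfl⟩)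
    · exact Or.inl ⟨i, ⟨h1, h2⟩, rfl⟩
    · exact Or.inr (Or.inl ⟨e, h1, rfl⟩)
    · exact Or.inr (Or.inr ⟨e, h1, rfl⟩)

variable {σ α η}

theorem card_free (h : Pl σ α η M) : ((range M).filter (fun i => σ i = none)).card + 2 * k = M := by
  classical
  have h1 : ((range M).filter (fun i => ¬ σ i = none)).card = 2 * k := by
    have e : (range M).filter (fun i => ¬ σ i = none) =
        (univ : Finset (Fin k)).image α ∪ (univ : Finset (Fin k)).image η := by
      ext i
      simp only [mem_filter, mem_range, mem_union, mem_image, mem_univ, true_and]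
      constructor
      · rintro ⟨-, h2⟩
        rcases h3 : σ i with _ | j | j
        · exact absurd h3 h2
        · exact Or.inl ⟨j, (h.ia i j h3).symm⟩
        · exact Or.inr ⟨j, (h.ie i j h3).symm⟩
      · rintro (⟨j, rfl⟩ | ⟨j, rfl⟩)
        · exact ⟨h.la j, by rw [h.sa j]; simp⟩
        · exact ⟨h.le j, by rw [h.se j]; simp⟩
    rw [e, card_union_of_disjoint, card_image_of_injective, card_image_of_injective, card_univ,
      Fintype.card_fin]
    · ring
    · intro i j hij
      have h2 := h.se i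
      rw [hij, h.se j] at h2
      simpa using h2.symm
    · intro i j hij
      have h2 := h.sa i
      rw [hij, h.sa j] at h2
      simpa using h2.symm
    · rw [Finset.disjoint_left]
      intro x hx hx'
      obtain ⟨i, -, rfl⟩ := mem_image.1 hx
      obtain ⟨j, -, hj⟩ := mem_image.1 hx'
      have h2 := h.sa i
      rw [← hj, h.se j] at h2
      simp at h2
  have h2 := Finset.card_filter_add_card_filter_not (s := range M) (fun i => σ i = none)
  rw [card_range, h1] at h2
  exact h2

theorem card_rest (h : Pl σ α η M) (hm : 3 * M ≤ m) : (rest σ M m).card = 2 * m - 5 * M := by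
  classical
  have h0 := card_free h
  unfold rest
  rw [card_union_of_disjoint, card_union_of_disjoint, card_image_of_injective,
    card_image_of_injective, card_image_of_injective, card_range]
  · omega
  · intro i j hij
    simp only [EmbeddingLike.apply_eq_iff_eq, Prod.mk.injEq] at hij
    omega
  · intro i j hij
    simp only [EmbeddingLike.apply_eq_iff_eq, Prod.mk.injEq] at hij
    omega
  · intro i j hij
    simp only [EmbeddingLike.apply_eq_iff_eq, Prod.mk.injEq] at hij
    omega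
  · rw [Finset.disjoint_left]
    intro x hx hx'
    obtain ⟨i, hi, rfl⟩ := mem_image.1 hx
    obtain ⟨j, hj, h1⟩ := mem_image.1 hx'
    simp only [EmbeddingLike.apply_eq_iff_eq, Prod.mk.injEq] at h1
    omega
  · rw [Finset.disjoint_left]
    intro x hx hx'
    obtain ⟨i, hi, rfl⟩ := mem_image.1 hx
    rw [mem_filter, mem_range] at hi
    rcases mem_union.1 hx' with hx' | hx' <;>
    · obtain ⟨j, hj, h1⟩ := mem_image.1 hx'
      simp only [EmbeddingLike.apply_eq_iff_eq, Prod.mk.injEq] at h1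
      omega

variable (σ α η)

/-- The sorted list of the other entries. -/
noncomputable def rst (M m : ℕ) (i : ℕ) : ℕ × ℕ :=
  if h : i < (rest σ M m).card then ofLex ((rest σ M m).orderEmbOfFin rfl ⟨i, h⟩) else (0, 0)

theorem rst_mem {i : ℕ} (h : i < (rest σ M m).card) : toLex (rst σ M m i) ∈ rest σ M m := by
  unfold rst
  rw [dif_pos h]
  exact Finset.orderEmbOfFin_mem (rest σ M m) rfl ⟨i, h⟩

theorem rst_lt {i j : ℕ} (hij : i < j) (h : j < (rest σ M m).card) :
    toLex (rst σ M m i) < toLex (rst σ M m j) := by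
  unfold rst
  rw [dif_pos h, dif_pos (lt_trans hij h)]
  exact ((rest σ M m).orderEmbOfFin rfl).strictMono hij

theorem rst_surj {y : ℕ × ℕ} (h : toLex y ∈ rest σ M m) :
    ∃ i < (rest σ M m).card, rst σ M m i = y := by
  have h1 : toLex y ∈ Set.range ((rest σ M m).orderEmbOfFin rfl) := by
    rw [Finset.range_orderEmbOfFin]
    exact h
  obtain ⟨i, hi⟩ := h1
  refine ⟨i.1, i.2, ?_⟩
  unfold rst
  rw [dif_pos i.2]
  show ofLex ((rest σ M m).orderEmbOfFin rfl i) = y
  rw [hi]
  rfl

/-- The entry number `i`. -/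
noncomputable def ent (M m : ℕ) (i : ℕ) : ℕ × ℕ :=
  if i < M then (0, 2 + 2 * i + bit σ a b i) else
  if i < 2 * M then (1, 3 + 2 * (i - M) - bit σ a b (i - M)) else
  if i < 5 * M then
    (if (i - 2 * M) % 3 = 0 then (2 + 2 * ((i - 2 * M) / 3), bit σ a b ((i - 2 * M) / 3)) else
      if (i - 2 * M) % 3 = 1 then (3 + 2 * ((i - 2 * M) / 3), 1 - bit σ a b ((i - 2 * M) / 3)) else
      (3 + 2 * ((i - 2 * M) / 3), prt σ α η M ((i - 2 * M) / 3)))
  else rst σ M m (i - 5 * M)

theorem ent0 {i : ℕ} (h : i < M) : ent σ α η a b M m i = (0, 2 + 2 * i + bit σ a b i) := by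
  unfold ent
  rw [if_pos h]

theorem ent1 {i : ℕ} (h : i < M) :
    ent σ α η a b M m (M + i) = (1, 3 + 2 * i - bit σ a b i) := by
  unfold ent
  rw [if_neg (by omega), if_pos (by omega), Nat.add_sub_cancel_left]

theorem ent2 {i : ℕ} (h : i < M) :
    ent σ α η a b M m (2 * M + 3 * i) = (2 + 2 * i, bit σ a b i) := by
  have e1 : (2 * M + 3 * i - 2 * M) / 3 = i := by omega
  unfold ent
  rw [if_neg (by omega), if_neg (by omega), if_pos (by omega), if_pos (by omega), e1]

theorem ent3 {i : ℕ} (h : i < M) :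
    ent σ α η a b M m (2 * M + 3 * i + 1) = (3 + 2 * i, 1 - bit σ a b i) := by
  have e1 : (2 * M + 3 * i + 1 - 2 * M) / 3 = i := by omega
  unfold ent
  rw [if_neg (by omega), if_neg (by omega), if_pos (by omega), if_neg (by omega),
    if_pos (by omega), e1]

theorem ent4 {i : ℕ} (h : i < M) :
    ent σ α η a b M m (2 * M + 3 * i + 2) = (3 + 2 * i, prt σ α η M i) := by
  have e1 : (2 * M + 3 * i + 2 - 2 * M) / 3 = i := by omega
  unfold ent
  rw [if_neg (by omega), if_neg (by omega), if_pos (by omega), if_neg (by omega),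
    if_neg (by omega), e1]

theorem ent5 (i : ℕ) : ent σ α η a b M m (5 * M + i) = rst σ M m i := by
  unfold ent
  rw [if_neg (by omega), if_neg (by omega), if_neg (by omega), Nat.add_sub_cancel_left]

/-- The six kinds of places. -/
theorem kinds (M : ℕ) (i : ℕ) : i < M ∨ (∃ l < M, i = M + l) ∨ (∃ l < M, i = 2 * M + 3 * l) ∨
    (∃ l < M, i = 2 * M + 3 * l + 1) ∨ (∃ l < M, i = 2 * M + 3 * l + 2) ∨
    ∃ l, i = 5 * M + l := by
  by_cases h1 : i < M
  · exact Or.inl h1
  by_cases h2 : i < 2 * M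
  · exact Or.inr (Or.inl ⟨i - M, by omega, by omega⟩)
  by_cases h3 : i < 5 * M
  · have h4 : (i - 2 * M) / 3 < M := by omega
    rcases (by omega : (i - 2 * M) % 3 = 0 ∨ (i - 2 * M) % 3 = 1 ∨ (i - 2 * M) % 3 = 2) with h | h | h
    · exact Or.inr (Or.inr (Or.inl ⟨_, h4, by omega⟩))
    · exact Or.inr (Or.inr (Or.inr (Or.inl ⟨_, h4, by omega⟩)))
    · exact Or.inr (Or.inr (Or.inr (Or.inr (Or.inl ⟨_, h4, by omega⟩))))
  · exact Or.inr (Or.inr (Or.inr (Or.inr (Or.inr ⟨i - 5 * M, by omega⟩))))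

end Ent

end Pool.Agent.K7.H45.ADJ
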