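import Pool.Agent.K7.H45.ADJ.Inst

/-!
Adjacency lists with few variable places: the graph.
-/

set_option autoImplicit false

open Finset

namespace Pool.Agent.K7.H45.ADJ

section Ent

variable {k M m : ℕ} (σ : ℕ → Option (Fin k ⊕ Fin k)) (α η : Fin k → ℕ) (a b : Fin k → Fin 2)

/-- The adjacency relation. -/
def AdjR (M m p q : ℕ) : Prop :=
  (∃ i < M, p = 0 ∧ q = 2 + 2 * i + bit σ a b i) ∨
  (∃ i < M, p = 1 ∧ q = 3 + 2 * i - bit σ a b i) ∨
  (∃ i < M, p = 2 + 2 * i ∧ q = bit σ a b i) ∨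
  (∃ i < M, p = 3 + 2 * i ∧ q = 1 - bit σ a b i) ∨
  (∃ i < M, p = 3 + 2 * i ∧ q = prt σ α η M i) ∨ toLex (p, q) ∈ rest σ M m

variable {σ α η}

theorem mem_ent (h : Pl σ α η M) (hm : 3 * M ≤ m) (p q : ℕ) :
    (∃ i < 2 * m, ent σ α η a b M m i = (p, q)) ↔ AdjR σ α η a b M m p q := by
  have hc := card_rest h hm
  constructor
  · rintro ⟨i, hi, he⟩
    rcases kinds M i with h1 | ⟨l, hl, rfl⟩ | ⟨l, hl, rfl⟩ | ⟨l, hl, rfl⟩ | ⟨l, hl, rfl⟩ | ⟨l, rfl⟩
    · rw [ent0 σ α η a b h1, Prod.mk.injEq] at he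
      exact Or.inl ⟨i, h1, he.1.symm, he.2.symm⟩
    · rw [ent1 σ α η a b hl, Prod.mk.injEq] at he
      exact Or.inr (Or.inl ⟨l, hl, he.1.symm, he.2.symm⟩)
    · rw [ent2 σ α η a b hl, Prod.mk.injEq] at he
      exact Or.inr (Or.inr (Or.inl ⟨l, hl, he.1.symm, he.2.symm⟩))
    · rw [ent3 σ α η a b hl, Prod.mk.injEq] at he
      exact Or.inr (Or.inr (Or.inr (Or.inl ⟨l, hl, he.1.symm, he.2.symm⟩)))
    · rw [ent4 σ α η a b hl, Prod.mk.injEq] at he
      exact Or.inr (Or.inr (Or.inr (Or.inr (Or.inl ⟨l, hl, he.1.symm, he.2.symm⟩))))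
    · rw [ent5 σ α η a b l] at he
      have := rst_mem σ (M := M) (m := m) (i := l) (by omega)
      rw [he] at this
      exact Or.inr (Or.inr (Or.inr (Or.inr (Or.inr this))))
  · rintro (⟨i, hi, rfl, rfl⟩ | ⟨i, hi, rfl, rfl⟩ | ⟨i, hi, rfl, rfl⟩ | ⟨i, hi, rfl, rfl⟩ |
      ⟨i, hi, rfl, rfl⟩ | hr)
    · exact ⟨i, by omega, ent0 σ α η a b hi⟩
    · exact ⟨M + i, by omega, ent1 σ α η a b hi⟩
    · exact ⟨2 * M + 3 * i, by omega, ent2 σ α η a b hi⟩
    · exact ⟨2 * M + 3 * i + 1, by omega, ent3 σ α η a b hi⟩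
    · exact ⟨2 * M + 3 * i + 2, by omega, ent4 σ α η a b hi⟩
    · obtain ⟨l, hl, h1⟩ := rst_surj σ hr
      exact ⟨5 * M + l, by omega, by rw [ent5, h1]⟩

theorem adj_symm (h : Pl σ α η M) {p q : ℕ} (hpq : AdjR σ α η a b M m p q) :
    AdjR σ α η a b M m q p := by
  unfold AdjR at hpq ⊢
  rcases hpq with ⟨i, hi, rfl, rfl⟩ | ⟨i, hi, rfl, rfl⟩ | ⟨i, hi, rfl, rfl⟩ | ⟨i, hi, rfl, rfl⟩ |
      ⟨i, hi, rfl, rfl⟩ | hr
  · rcases (by have := bit_le σ a b i; omega : bit σ a b i = 0 ∨ bit σ a b i = 1) with e | e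
    · exact Or.inr (Or.inr (Or.inl ⟨i, hi, by omega, by omega⟩))
    · exact Or.inr (Or.inr (Or.inr (Or.inl ⟨i, hi, by omega, by omega⟩)))
  · rcases (by have := bit_le σ a b i; omega : bit σ a b i = 0 ∨ bit σ a b i = 1) with e | e
    · exact Or.inr (Or.inr (Or.inr (Or.inl ⟨i, hi, by omega, by omega⟩)))
    · exact Or.inr (Or.inr (Or.inl ⟨i, hi, by omega, by omega⟩))
  · rcases (by have := bit_le σ a b i; omega : bit σ a b i = 0 ∨ bit σ a b i = 1) with e | e
    · exact Or.inl ⟨i, hi, by omega, by omega⟩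
    · exact Or.inr (Or.inl ⟨i, hi, by omega, by omega⟩)
  · rcases (by have := bit_le σ a b i; omega : bit σ a b i = 0 ∨ bit σ a b i = 1) with e | e
    · exact Or.inr (Or.inl ⟨i, hi, by omega, by omega⟩)
    · exact Or.inl ⟨i, hi, by omega, by omega⟩
  · rcases hs : σ i with _ | j | j
    · refine Or.inr (Or.inr (Or.inr (Or.inr (Or.inr ?_))))
      rw [mem_rest]
      refine Or.inl ⟨i, hi, hs, ?_⟩
      unfold prt
      rw [hs]
    · have e := h.ia i j hs
      refine Or.inr (Or.inr (Or.inr (Or.inr (Or.inl ⟨η j, h.le j, ?_, ?_⟩))))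
      · unfold prt
        rw [hs]
      · unfold prt
        rw [h.se j, e]
    · have e := h.ie i j hs
      refine Or.inr (Or.inr (Or.inr (Or.inr (Or.inl ⟨α j, h.la j, ?_, ?_⟩))))
      · unfold prt
        rw [hs]
      · unfold prt
        rw [h.sa j, e]
  · rw [mem_rest] at hr
    rcases hr with ⟨i, hi, hs, he⟩ | ⟨e, he', he⟩ | ⟨e, he', he⟩
    · simp only [EmbeddingLike.apply_eq_iff_eq, Prod.mk.injEq] at he
      refine Or.inr (Or.inr (Or.inr (Or.inr (Or.inl ⟨i, hi, he.2, ?_⟩))))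
      unfold prt
      rw [hs]
      exact he.1
    · simp only [EmbeddingLike.apply_eq_iff_eq, Prod.mk.injEq] at he
      refine Or.inr (Or.inr (Or.inr (Or.inr (Or.inr ?_))))
      rw [mem_rest]
      exact Or.inr (Or.inr ⟨e, he', by rw [he.1, he.2]⟩)
    · simp only [EmbeddingLike.apply_eq_iff_eq, Prod.mk.injEq] at he
      refine Or.inr (Or.inr (Or.inr (Or.inr (Or.inr ?_))))
      rw [mem_rest]
      exact Or.inr (Or.inl ⟨e, he', by rw [he.1, he.2]⟩)

theorem prt_ne (h : Pl σ α η M) {i : ℕ} (hi : i < M) : prt σ α η M i ≠ 3 + 2 * i ∧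
    2 ≤ prt σ α η M i ∧ prt σ α η M i < 2 + 3 * M := by
  unfold prt
  rcases hs : σ i with _ | j | j
  · simp only
    omega
  · have e := h.ia i j hs
    have e2 := h.le j
    refine ⟨?_, ?_, ?_⟩ <;> simp only <;> try omega
    intro h3
    have h4 : η j = i := by omega
    have h5 := h.se j
    rw [h4, hs] at h5
    simp at h5
  · have e := h.ie i j hs
    have e2 := h.la j
    refine ⟨?_, ?_, ?_⟩ <;> simp only <;> try omega
    intro h3
    have h4 : α j = i := by omega
    have h5 := h.sa j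
    rw [h4, hs] at h5
    simp at h5

theorem adj_ne (h : Pl σ α η M) {p q : ℕ} (hpq : AdjR σ α η a b M m p q) : p ≠ q := by
  unfold AdjR at hpq
  rcases hpq with ⟨i, hi, rfl, rfl⟩ | ⟨i, hi, rfl, rfl⟩ | ⟨i, hi, rfl, rfl⟩ | ⟨i, hi, rfl, rfl⟩ |
      ⟨i, hi, rfl, rfl⟩ | hr
  · omega
  · have := bit_le σ a b i; omega
  · have := bit_le σ a b i; omega
  · omega
  · exact (prt_ne h hi).1.symm
  · rw [mem_rest] at hr
    rcases hr with ⟨i, hi, hs, he⟩ | ⟨e, he', he⟩ | ⟨e, he', he⟩ <;>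
    · simp only [EmbeddingLike.apply_eq_iff_eq, Prod.mk.injEq] at he
      omega

theorem adj_lt (h : Pl σ α η M) (hm : 3 * M ≤ m) (hM : 1 ≤ M) {p q : ℕ}
    (hpq : AdjR σ α η a b M m p q) : p < 2 * m := by
  have h0 := card_free h
  unfold AdjR at hpq
  rcases hpq with ⟨i, hi, rfl, rfl⟩ | ⟨i, hi, rfl, rfl⟩ | ⟨i, hi, rfl, rfl⟩ | ⟨i, hi, rfl, rfl⟩ |
      ⟨i, hi, rfl, rfl⟩ | hr
  · omega
  · omega
  · omega
  · omega
  · omega
  · rw [mem_rest] at hr
    rcases hr with ⟨i, hi, hs, he⟩ | ⟨e, he', he⟩ | ⟨e, he', he⟩ <;>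
    · simp only [EmbeddingLike.apply_eq_iff_eq, Prod.mk.injEq] at he
      omega

/-- The first components of the last entries are large. -/
theorem rst_ge (h : Pl σ α η M) (hm : 3 * M ≤ m) {l : ℕ} (hl : 5 * M + l < 2 * m) :
    2 + 2 * M ≤ (rst σ M m l).1 := by
  have hc := card_rest h hm
  have hr := rst_mem σ (M := M) (m := m) (i := l) (by omega)
  rw [mem_rest] at hr
  rcases hr with ⟨i, hi, hs, he⟩ | ⟨e, he', he⟩ | ⟨e, he', he⟩ <;>
  · rw [EmbeddingLike.apply_eq_iff_eq] at he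
    rw [he]
    simp only
    omega

theorem ent_sorted (h : Pl σ α η M) (hm : 3 * M ≤ m) {i j : ℕ} (hij : i < j) (hj : j < 2 * m) :
    (ent σ α η a b M m i).1 < (ent σ α η a b M m j).1 ∨
    (ent σ α η a b M m i).1 = (ent σ α η a b M m j).1 ∧
      (ent σ α η a b M m i).2 < (ent σ α η a b M m j).2 := by
  have hc := card_rest h hm
  have B := bit_le σ a b
  rcases kinds M i with h1 | ⟨l, hl, rfl⟩ | ⟨l, hl, rfl⟩ | ⟨l, hl, rfl⟩ | ⟨l, hl, rfl⟩ | ⟨l, rfl⟩ <;>
    rcases kinds M j with h1' | ⟨l', hl', rfl⟩ | ⟨l', hl', rfl⟩ | ⟨l', hl', rfl⟩ | ⟨l', hl', rfl⟩ |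
      ⟨l', rfl⟩
  all_goals first
    | (exfalso; omega)
    | skip
  · rw [ent0 σ α η a b h1, ent0 σ α η a b h1']
    have := B i; have := B j
    exact Or.inr ⟨rfl, show 2 + 2 * i + bit σ a b i < 2 + 2 * j + bit σ a b j by omega⟩
  · rw [ent0 σ α η a b h1, ent1 σ α η a b hl']; simp only; omega
  · rw [ent0 σ α η a b h1, ent2 σ α η a b hl']; simp only; omega
  · rw [ent0 σ α η a b h1, ent3 σ α η a b hl']; simp only; omega
  · rw [ent0 σ α η a b h1, ent4 σ α η a b hl']; simp only; omega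
  · rw [ent0 σ α η a b h1, ent5 σ α η a b l']
    have := rst_ge h hm hj
    simp only; omega
  · rw [ent1 σ α η a b hl, ent1 σ α η a b hl']
    have := B l; have := B l'
    exact Or.inr ⟨rfl, show 3 + 2 * l - bit σ a b l < 3 + 2 * l' - bit σ a b l' by omega⟩
  · rw [ent1 σ α η a b hl, ent2 σ α η a b hl']; simp only; omega
  · rw [ent1 σ α η a b hl, ent3 σ α η a b hl']; simp only; omega
  · rw [ent1 σ α η a b hl, ent4 σ α η a b hl']; simp only; omega
  · rw [ent1 σ α η a b hl, ent5 σ α η a b l']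
    have := rst_ge h hm hj
    simp only; omega
  · rw [ent2 σ α η a b hl, ent2 σ α η a b hl']; simp only; omega
  · rw [ent2 σ α η a b hl, ent3 σ α η a b hl']; simp only; omega
  · rw [ent2 σ α η a b hl, ent4 σ α η a b hl']; simp only; omega
  · rw [ent2 σ α η a b hl, ent5 σ α η a b l']
    have := rst_ge h hm hj
    simp only; omega
  · rw [ent3 σ α η a b hl, ent2 σ α η a b hl']; simp only; omega
  · rw [ent3 σ α η a b hl, ent3 σ α η a b hl']; simp only; omega
  · rw [ent3 σ α η a b hl, ent4 σ α η a b hl']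
    by_cases hll : l = l'
    · subst hll
      have := prt_ne h hl
      have := B l
      exact Or.inr ⟨rfl, show 1 - bit σ a b l < prt σ α η M l by omega⟩
    · simp only; omega
  · rw [ent3 σ α η a b hl, ent5 σ α η a b l']
    have := rst_ge h hm hj
    simp only; omega
  · rw [ent4 σ α η a b hl, ent2 σ α η a b hl']; simp only; omega
  · rw [ent4 σ α η a b hl, ent3 σ α η a b hl']; simp only; omega
  · rw [ent4 σ α η a b hl, ent4 σ α η a b hl']; simp only; omega
  · rw [ent4 σ α η a b hl, ent5 σ α η a b l']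
    have := rst_ge h hm hj
    simp only; omega
  · rw [ent5 σ α η a b l, ent5 σ α η a b l']
    have h3 := rst_lt σ (M := M) (m := m) (i := l) (j := l') (by omega) (by omega)
    rw [Prod.Lex.lt_iff] at h3
    exact h3

/-- The first components do not depend on the bits. -/
theorem ent_fst (a' b' : Fin k → Fin 2) (i : ℕ) :
    (ent σ α η a b M m i).1 = (ent σ α η a' b' M m i).1 := by
  unfold ent
  split_ifs <;> rfl

theorem bit_congr_b (h : Pl σ α η M) (b' : Fin k → Fin 2) {i : ℕ} (hi : ∀ j, i ≠ η j) :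
    bit σ a b i = bit σ a b' i := by
  unfold bit
  rcases hs : σ i with _ | j | j
  · rfl
  · rfl
  · exact absurd (h.ie i j hs) (hi j)

theorem bit_congr_a (h : Pl σ α η M) (a' : Fin k → Fin 2) {i : ℕ} (hi : ∀ j, i ≠ α j) :
    bit σ a b i = bit σ a' b i := by
  unfold bit
  rcases hs : σ i with _ | j | j
  · rfl
  · exact absurd (h.ia i j hs) (hi j)
  · rfl

/-- The entries depend on the bit of their group only. -/
theorem ent_congr (a' b' : Fin k → Fin 2) {n : ℕ} (p : Fin (2 * m))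
    (hp : ∀ l, grp n m M (Sum.inr p) = some l → bit σ a b l = bit σ a' b' l) :
    ent σ α η a b M m p.1 = ent σ α η a' b' M m p.1 := by
  unfold grp at hp
  simp only at hp
  unfold ent
  split_ifs with h1 h2 h3 h4 h5
  · rw [hp p.1 (by rw [if_pos h1])]
  · rw [hp _ (by rw [if_neg h1, if_pos h2])]
  · rw [hp _ (by rw [if_neg h1, if_neg h2, if_pos h3, if_neg (by omega)])]
  · rw [hp _ (by rw [if_neg h1, if_neg h2, if_pos h3, if_neg (by omega)])]
  · rfl
  · rfl

/-- Triangles. -/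
theorem tri_iff (h : Pl σ α η M) :
    (∃ x y z : ℕ, x < y ∧ y < z ∧ AdjR σ α η a b M m x y ∧ AdjR σ α η a b M m x z ∧
      AdjR σ α η a b M m y z) ↔ ∃ j, a j = b j := by
  constructor
  · rintro ⟨x, y, z, hxy, hyz, h1, h2, h3⟩
    -- the neighbours of `y` that are larger
    have key : ∀ y z, 2 ≤ y → y < z → AdjR σ α η a b M m y z →
        (∃ i < M, y = 3 + 2 * i ∧ z = prt σ α η M i) ∨
        (∃ e < m - 3 * M + k, y = 2 + 3 * M + 2 * e ∧ z = 3 + 3 * M + 2 * e) := by
      intro y z hy hyz h4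
      unfold AdjR at h4
      rcases h4 with ⟨i, hi, e1, e2⟩ | ⟨i, hi, e1, e2⟩ | ⟨i, hi, e1, e2⟩ | ⟨i, hi, e1, e2⟩ |
        ⟨i, hi, e1, e2⟩ | hr
      · omega
      · omega
      · have := bit_le σ a b i; omega
      · omega
      · exact Or.inl ⟨i, hi, e1, e2⟩
      · rw [mem_rest] at hr
        rcases hr with ⟨i, hi, hs, he⟩ | ⟨e, he', he⟩ | ⟨e, he', he⟩ <;>
          simp only [EmbeddingLike.apply_eq_iff_eq, Prod.mk.injEq] at he
        · omega
        · exact Or.inr ⟨e, he', he.1, he.2⟩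
        · omega
    -- the neighbours of the hubs
    have hub0 : ∀ y, AdjR σ α η a b M m 0 y → ∃ i < M, y = 2 + 2 * i + bit σ a b i := by
      intro y h4
      unfold AdjR at h4
      rcases h4 with ⟨i, hi, e1, e2⟩ | ⟨i, hi, e1, e2⟩ | ⟨i, hi, e1, e2⟩ | ⟨i, hi, e1, e2⟩ |
        ⟨i, hi, e1, e2⟩ | hr
      · exact ⟨i, hi, e2⟩
      · omega
      · omega
      · omega
      · omega
      · rw [mem_rest] at hr
        rcases hr with ⟨i, hi, hs, he⟩ | ⟨e, he', he⟩ | ⟨e, he', he⟩ <;>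
        · simp only [EmbeddingLike.apply_eq_iff_eq, Prod.mk.injEq] at he
          omega
    have hub1 : ∀ y, AdjR σ α η a b M m 1 y → ∃ i < M, y = 3 + 2 * i - bit σ a b i := by
      intro y h4
      unfold AdjR at h4
      rcases h4 with ⟨i, hi, e1, e2⟩ | ⟨i, hi, e1, e2⟩ | ⟨i, hi, e1, e2⟩ | ⟨i, hi, e1, e2⟩ |
        ⟨i, hi, e1, e2⟩ | hr
      · omega
      · exact ⟨i, hi, e2⟩
      · omega
      · omega
      · omega
      · rw [mem_rest] at hr
        rcases hr with ⟨i, hi, hs, he⟩ | ⟨e, he', he⟩ | ⟨e, he', he⟩ <;>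
        · simp only [EmbeddingLike.apply_eq_iff_eq, Prod.mk.injEq] at he
          omega
    -- the conclusion from two matched vertices with the same bit
    have fin : ∀ i l, i < M → l < M → prt σ α η M i = 3 + 2 * l → bit σ a b i = bit σ a b l →
        ∃ j, a j = b j := by
      intro i l hi hl hp hb
      unfold prt at hp
      rcases hs : σ i with _ | j | j
      · rw [hs] at hp
        simp only at hp
        omega
      · rw [hs] at hp
        simp only at hp
        have e : l = η j := by omega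
        refine ⟨j, ?_⟩
        unfold bit at hb
        rw [hs, e, h.se j] at hb
        exact Fin.ext hb
      · rw [hs] at hp
        simp only at hp
        have e : l = α j := by omega
        refine ⟨j, ?_⟩
        unfold bit at hb
        rw [hs, e, h.sa j] at hb
        exact Fin.ext hb.symm
    rcases (by omega : x = 0 ∨ x = 1 ∨ 2 ≤ x) with hx | hx | hx
    · rw [hx] at h1 h2
      obtain ⟨i, hi, e1⟩ := hub0 y h1
      obtain ⟨l, hl, e2⟩ := hub0 z h2
      have B1 := bit_le σ a b i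
      have B2 := bit_le σ a b l
      rcases key y z (by omega) hyz h3 with ⟨i', hi', e3, e4⟩ | ⟨e, -, e3, e4⟩
      · have e5 : i' = i := by omega
        rw [e5] at e3 e4 hi'
        have e6 : bit σ a b i = 1 := by omega
        have e7 : prt σ α η M i = 3 + 2 * l ∧ bit σ a b l = 1 := by
          rcases hs : σ i with _ | j | j
          · have : prt σ α η M i = 2 + 2 * M + i := by unfold prt; rw [hs]
            omega
          · have : prt σ α η M i = 3 + 2 * η j := by unfold prt; rw [hs]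
            omega
          · have : prt σ α η M i = 3 + 2 * α j := by unfold prt; rw [hs]
            omega
        exact fin i l hi hl e7.1 (by rw [e6, e7.2])
      · omega
    · rw [hx] at h1 h2
      obtain ⟨i, hi, e1⟩ := hub1 y h1
      obtain ⟨l, hl, e2⟩ := hub1 z h2
      have B1 := bit_le σ a b i
      have B2 := bit_le σ a b l
      rcases key y z (by omega) hyz h3 with ⟨i', hi', e3, e4⟩ | ⟨e, -, e3, e4⟩
      · have e5 : i' = i := by omega
        rw [e5] at e3 e4 hi'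
        have e6 : bit σ a b i = 0 := by omega
        have e7 : prt σ α η M i = 3 + 2 * l ∧ bit σ a b l = 0 := by
          rcases hs : σ i with _ | j | j
          · have : prt σ α η M i = 2 + 2 * M + i := by unfold prt; rw [hs]
            omega
          · have : prt σ α η M i = 3 + 2 * η j := by unfold prt; rw [hs]
            omega
          · have : prt σ α η M i = 3 + 2 * α j := by unfold prt; rw [hs]
            omega
        exact fin i l hi hl e7.1 (by rw [e6, e7.2])
      · omega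
    · exfalso
      rcases key x y hx hxy h1 with ⟨i, hi, e1, e2⟩ | ⟨e, he, e1, e2⟩ <;>
        rcases key x z hx (by omega) h2 with ⟨i', hi', e1', e2'⟩ | ⟨e', he', e1', e2'⟩
      · have : i' = i := by omega
        rw [this] at e2'
        omega
      · omega
      · omega
      · omega
  · rintro ⟨j, hj⟩
    have hα : bit σ a b (α j) = (a j).1 := by unfold bit; rw [h.sa j]
    have hη : bit σ a b (η j) = (a j).1 := by unfold bit; rw [h.se j, hj]
    have hp : prt σ α η M (α j) = 3 + 2 * η j := by unfold prt; rw [h.sa j]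
    have hp' : prt σ α η M (η j) = 3 + 2 * α j := by unfold prt; rw [h.se j]
    have hne : α j ≠ η j := by
      intro e
      have h5 := h.sa j
      rw [e, h.se j] at h5
      simp at h5
    have haj := (a j).2
    have H : ∀ i, i = α j ∨ i = η j → AdjR σ α η a b M m (1 - (a j).1) (3 + 2 * i) := by
      intro i hi
      have hb : bit σ a b i = (a j).1 := by
        rcases hi with rfl | rfl
        · exact hα
        · exact hη
      have hiM : i < M := by
        rcases hi with rfl | rfl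
        · exact h.la j
        · exact h.le j
      rcases (by omega : (a j).1 = 0 ∨ (a j).1 = 1) with e | e
      · exact Or.inr (Or.inl ⟨i, hiM, by omega, by omega⟩)
      · exact Or.inl ⟨i, hiM, by omega, by omega⟩
    rcases lt_or_gt_of_ne hne with hlt | hlt
    · exact ⟨1 - (a j).1, 3 + 2 * α j, 3 + 2 * η j, by omega, by omega, H _ (Or.inl rfl),
        H _ (Or.inr rfl), Or.inr (Or.inr (Or.inr (Or.inr (Or.inl ⟨α j, h.la j, rfl, hp.symm⟩))))⟩
    · exact ⟨1 - (a j).1, 3 + 2 * η j, 3 + 2 * α j, by omega, by omega, H _ (Or.inr rfl),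
        H _ (Or.inl rfl), Or.inr (Or.inr (Or.inr (Or.inr (Or.inl ⟨η j, h.le j, rfl, hp'.symm⟩))))⟩

end Ent

section Inp

variable {k M m : ℕ} (n : ℕ) (σ : ℕ → Option (Fin k ⊕ Fin k)) (α η : Fin k → ℕ)
  (a b : Fin k → Fin 2)

/-- The input. -/
noncomputable def inp (M m : ℕ) : Place n m → ℕ × ℕ
  | Sum.inl v => (v.1,
      (univ.filter (fun i : Fin (2 * m) => (ent σ α η a b M m i.1).1 < v.1)).card)
  | Sum.inr i => ent σ α η a b M m i.1

variable {σ α η}

theorem inp_mem (h : Pl σ α η M) (hm : 3 * M ≤ m) (p q : ℕ) :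
    (∃ i, inp n σ α η a b M m (Sum.inr i) = (p, q)) ↔ AdjR σ α η a b M m p q := by
  rw [← mem_ent a b h hm]
  constructor
  · rintro ⟨i, hi⟩
    exact ⟨i.1, i.2, hi⟩
  · rintro ⟨i, hi, h1⟩
    exact ⟨⟨i, hi⟩, h1⟩

theorem inp_isAdj (h : Pl σ α η M) (hm : 3 * M ≤ m) (hM : 1 ≤ M) (hn : 2 * m ≤ n) :
    IsAdj (inp n σ α η a b M m) := by
  have A : ∀ i : Fin (2 * m), AdjR σ α η a b M m (inp n σ α η a b M m (Sum.inr i)).1
      (inp n σ α η a b M m (Sum.inr i)).2 := fun i => (inp_mem n a b h hm _ _).1 ⟨i, rfl⟩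
  refine ⟨fun i j hij => ent_sorted a b h hm hij j.2, fun i => ⟨?_, ?_⟩, fun i => ?_, fun i => ?_,
    fun v => rfl⟩
  · have := adj_lt a b h hm hM (A i); omega
  · have := adj_lt a b h hm hM (adj_symm a b h (A i)); omega
  · exact adj_ne a b h (A i)
  · exact (inp_mem n a b h hm _ _).2 (adj_symm a b h (A i))

theorem inp_tri (h : Pl σ α η M) (hm : 3 * M ≤ m) :
    ¬ HasTriangle (inp n σ α η a b M m) ↔ ∀ j, a j ≠ b j := by
  have : HasTriangle (inp n σ α η a b M m) ↔ ∃ j, a j = b j := by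
    rw [← tri_iff (m := m) a b h]
    unfold HasTriangle
    simp only [inp_mem n a b h hm]
  rw [this]
  push Not
  rfl

theorem inp_congr (a' b' : Fin k → Fin 2) (p : Place n m)
    (hp : ∀ l, grp n m M p = some l → bit σ a b l = bit σ a' b' l) :
    inp n σ α η a b M m p = inp n σ α η a' b' M m p := by
  rcases p with v | i
  · show (v.1, _) = (v.1, _)
    congr 2
    apply Finset.filter_congr
    intro i _
    rw [ent_fst a b a' b' i.1]
  · exact ent_congr a b a' b' i hp

end Inp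

end Pool.Agent.K7.H45.ADJ
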