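import Pool.Agent.K7.H45.ADJ.Inst2

/-!
Triangle detection in adjacency lists by word circuits: the bounds.
-/

set_option autoImplicit false

open Finset Filter

namespace Pool.Agent.K7.H45.ADJ

open Pool.Agent.Y631.Wc

/-- Enumeration of chosen groups. -/
theorem enum {h0 h1 k : ℕ} (A : Finset (Option ℕ)) (hA : A ⊆ (Ico h0 h1).image some)
    (hk : k ≤ A.card) : ∃ α : Fin k → ℕ, Function.Injective α ∧ (∀ j, some (α j) ∈ A) ∧
      ∀ j, h0 ≤ α j ∧ α j < h1 := by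
  classical
  obtain ⟨B, hB⟩ : ∃ B : Finset ℕ, B = (Ico h0 h1).filter (fun i => some i ∈ A) := ⟨_, rfl⟩
  have h2 : A ⊆ B.image some := by
    intro x hx
    obtain ⟨i, hi, rfl⟩ := mem_image.1 (hA hx)
    rw [hB]
    exact mem_image.2 ⟨i, mem_filter.2 ⟨hi, hx⟩, rfl⟩
  have h3 : k ≤ B.card := hk.trans ((card_le_card h2).trans card_image_le)
  obtain ⟨B', hB', hc⟩ := Finset.exists_subset_card_eq h3
  refine ⟨fun j => B'.orderEmbOfFin hc j, (B'.orderEmbOfFin hc).injective, fun j => ?_, fun j => ?_⟩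
  · have := hB' (Finset.orderEmbOfFin_mem B' hc j)
    rw [hB, mem_filter] at this
    exact this.2
  · have := hB' (Finset.orderEmbOfFin_mem B' hc j)
    rw [hB, mem_filter, mem_Ico] at this
    exact this.1

theorem exists_pl {h k : ℕ} (α η : Fin k → ℕ) (hα : Function.Injective α)
    (hη : Function.Injective η) (h1 : ∀ j, α j < h) (h2 : ∀ j, h ≤ η j ∧ η j < 2 * h) :
    ∃ σ : ℕ → Option (Fin k ⊕ Fin k), Pl σ α η (2 * h) := by
  classical
  let σ : ℕ → Option (Fin k ⊕ Fin k) := fun i =>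
    if e : ∃ j, α j = i then some (Sum.inl e.choose)
    else if e : ∃ j, η j = i then some (Sum.inr e.choose) else none
  refine ⟨σ, fun j => ?_, fun j => (h2 j).2, fun j => ?_, fun j => ?_, fun i j hi => ?_,
    fun i j hi => ?_⟩
  · have := h1 j; omega
  · have e : ∃ j', α j' = α j := ⟨j, rfl⟩
    simp only [σ]
    rw [dif_pos e, hα e.choose_spec]
  · have e : ∃ j', η j' = η j := ⟨j, rfl⟩
    have e' : ¬ ∃ j', α j' = η j := by
      rintro ⟨j', hj'⟩
      have := h1 j'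
      have := (h2 j).1
      omega
    simp only [σ]
    rw [dif_neg e', dif_pos e, hη e.choose_spec]
  · simp only [σ] at hi
    split_ifs at hi with e e'
    · rw [Option.some.injEq, Sum.inl.injEq] at hi
      rw [← hi, e.choose_spec]
    · simp at hi
  · simp only [σ] at hi
    split_ifs at hi with e e'
    · simp at hi
    · rw [Option.some.injEq, Sum.inr.injEq] at hi
      rw [← hi, e'.choose_spec]

/-- The bounds, with `2 h` groups. -/
theorem adj_core {r κ θ m n L h k : ℕ} (hr : 1 ≤ r) (hL : 2 ≤ L) (hn : 2 * m ≤ n)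
    (hm : 6 * h ≤ m) {Z : Type} [Fintype Z] (hZ : Fintype.card Z ≤ L)
    (C : WCirc (Place n m) (ℕ × ℕ) Z) (hκ : C.FanIn κ) (hθ : C.TreewidthLE θ)
    (hR : C.reads ≤ r * (3 * h)) (h24 : 24 * r ≤ h) (hk : 4 ^ (12 * r) * k ≤ h) :
    ((∀ x, IsAdj x → (C.Accepts x ↔ ¬ HasTriangle x)) →
      2 ^ k ≤ L ^ (10000 * r ^ 2 * (κ + 1) * (θ + 1))) ∧
    (C.Unambiguous → (∀ x, IsAdj x → (C.Accepts x ↔ HasTriangle x)) →
      2 ^ k ≤ L ^ (10000 * r ^ 2 * (κ + 1) * (θ + 1)) + 1) := by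
  classical
  have hd : Disjoint ((Ico 0 h).image some) ((Ico h (2 * h)).image some) := by
    rw [Finset.disjoint_left]
    intro x hx hx'
    obtain ⟨i, hi, rfl⟩ := mem_image.1 hx
    obtain ⟨j, hj, hij⟩ := mem_image.1 hx'
    rw [Option.some.injEq] at hij
    rw [mem_Ico] at hi hj
    omega
  have hb := bounds_grp C (grp n m (2 * h)) (κ := κ) (θ := θ) (M := h) (m := 3 * h) (r := r)
    (K := 10000 * r ^ 2 * (κ + 1) * (θ + 1)) (L := L) (k := k) (q := 2) hr hκ hθ hR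
    ((Ico 0 h).image some) ((Ico h (2 * h)).image some) hd
    (by rw [card_image_of_injective _ (Option.some_injective _), Nat.card_Ico]; omega)
    (by rw [card_image_of_injective _ (Option.some_injective _), Nat.card_Ico]; omega)
    le_rfl h24 rfl hk le_rfl hL hZ (fun x => ¬ HasTriangle x) IsAdj (by
      intro A hA E hE hkA hkE
      obtain ⟨α, hα, hαA, hα1⟩ := enum A hA hkA
      obtain ⟨η, hη, hηE, hη1⟩ := enum E hE hkE
      obtain ⟨σ, hσ⟩ := exists_pl α η hα hη (fun j => (hα1 j).2) hη1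
      refine ⟨fun a b => inp n σ α η a b (2 * h) m, ?_, ?_, ?_, ?_⟩
      · intro a b b' p hp
        refine inp_congr n a b a b' p (fun l hl => bit_congr_b a b hσ b' (fun j hj => hp ?_))
        rw [hl, hj]
        exact hηE j
      · intro a a' b p hp
        refine inp_congr n a b a' b p (fun l hl => bit_congr_a a b hσ a' (fun j hj => hp ?_))
        rw [hl, hj]
        exact hαA j
      · intro a b
        exact inp_isAdj n a b hσ (by omega) (by omega) hn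
      · intro a b
        exact inp_tri n a b hσ (by omega))
  refine ⟨hb.1, fun hU hC => hb.2.2 hU (fun x hx => ?_)⟩
  rw [hC x hx, not_not]

/-- The explicit bounds. -/
theorem adj_bounds {r κ θ m n L : ℕ} (hr : 1 ≤ r) (hL : 2 ≤ L) (hn : 2 * m ≤ n)
    {Z : Type} [Fintype Z] (hZ : Fintype.card Z ≤ L)
    (C : WCirc (Place n m) (ℕ × ℕ) Z) (hκ : C.FanIn κ) (hθ : C.TreewidthLE θ)
    (hR : C.reads ≤ r * m) :
    ((∀ x, IsAdj x → (C.Accepts x ↔ ¬ HasTriangle x)) →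
      2 ^ (m / 2 ^ (72 * r + 3)) ≤ L ^ (90000 * r ^ 2 * (κ + 1) * (θ + 1))) ∧
    (C.Unambiguous → (∀ x, IsAdj x → (C.Accepts x ↔ HasTriangle x)) →
      2 ^ (m / 2 ^ (72 * r + 3)) ≤ L ^ (90000 * r ^ 2 * (κ + 1) * (θ + 1)) + 1) := by
  obtain ⟨k, hk⟩ : ∃ k, k = m / 2 ^ (72 * r + 3) := ⟨_, rfl⟩
  rw [← hk]
  have hL1 : 1 ≤ L ^ (90000 * r ^ 2 * (κ + 1) * (θ + 1)) := Nat.one_le_pow _ _ (by omega)
  by_cases hk0 : k = 0
  · rw [hk0]
    exact ⟨fun _ => by simpa using hL1, fun _ _ => by simp⟩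
  have h1 : k * 2 ^ (72 * r + 3) ≤ m := by rw [hk]; exact Nat.div_mul_le_self _ _
  have h2 : 4 ^ (12 * (3 * r)) = 2 ^ (72 * r) := by
    rw [show (4 : ℕ) = 2 ^ 2 by norm_num, ← pow_mul]
    congr 1
    ring
  have h3 : k * 2 ^ (72 * r + 3) = 8 * (2 ^ (72 * r) * k) := by
    rw [pow_add]
    ring
  have h4 : 72 * r < 2 ^ (72 * r) := Nat.lt_two_pow_self
  have h5 : 2 ^ (72 * r) * 1 ≤ 2 ^ (72 * r) * k := Nat.mul_le_mul_left _ (by omega)
  have h6 : C.reads ≤ 3 * r * (3 * (m / 6)) := by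
    have h7 : m ≤ 3 * (3 * (m / 6)) := by omega
    calc C.reads ≤ r * m := hR
      _ ≤ r * (3 * (3 * (m / 6))) := Nat.mul_le_mul_left _ h7
      _ = _ := by ring
  have h8 := adj_core (r := 3 * r) (h := m / 6) (k := k) (by omega) hL hn (by omega) hZ C hκ hθ h6
    (by omega) (by rw [h2]; omega)
  have e : 10000 * (3 * r) ^ 2 * (κ + 1) * (θ + 1) = 90000 * r ^ 2 * (κ + 1) * (θ + 1) := by ring
  rw [e] at h8
  exact h8

theorem adj_superlinear (c κ : ℕ) (ε : ℝ) (hε : 0 < ε) (hε1 : ε ≤ 1) : ∃ m₀ : ℕ,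
    ∀ m ≥ m₀, ∀ n ≥ 2 * m, ∀ (Z : Type) [Fintype Z], Fintype.card Z ≤ m ^ c →
      ∀ (C : WCirc (Place n m) (ℕ × ℕ) Z) (θ : ℕ), C.FanIn κ → C.TreewidthLE θ →
        (θ : ℝ) ≤ (m : ℝ) ^ (1 - ε) →
        ((C.Unambiguous ∧ ∀ x, IsAdj x → (C.Accepts x ↔ HasTriangle x)) ∨
          (∀ x, IsAdj x → (C.Accepts x ↔ ¬ HasTriangle x))) →
        ε / 360 * (m * Real.logb 2 m) ≤ C.reads := by
  obtain ⟨m₀, h2, hm₀⟩ := numeric (2 * c + 4) κ (ε / 2) (by positivity) (by linarith)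
  have ht1 : ∀ᶠ m : ℕ in atTop, (6 : ℝ) * (Real.logb 2 m + 1) ≤ (m : ℝ) ^ (ε / 2) := by
    have h3 : Tendsto (fun m : ℕ => (m : ℝ)) atTop atTop := tendsto_natCast_atTop_atTop
    have h4 := (isLittleO_log_rpow_atTop (show (0 : ℝ) < ε / 2 by positivity)).bound
      (show (0 : ℝ) < Real.log 2 / 12 by positivity)
    have h5 := (tendsto_rpow_atTop (show (0 : ℝ) < ε / 2 by positivity)).eventually_ge_atTop 12
    filter_upwards [h3.eventually h4, h3.eventually h5, eventually_ge_atTop 1] with m h6 h7 h8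
    have hm1 : (1 : ℝ) ≤ m := by exact_mod_cast h8
    rw [Real.norm_of_nonneg (Real.log_nonneg hm1), Real.norm_of_nonneg (by positivity)] at h6
    have hl2 : 0 < Real.log 2 := Real.log_pos (by norm_num)
    have h9 : Real.logb 2 m ≤ (m : ℝ) ^ (ε / 2) / 12 := by
      rw [Real.logb, div_le_iff₀ hl2]
      linarith
    linarith
  obtain ⟨m₁, hm₁⟩ := eventually_atTop.1 ht1
  refine ⟨max (max (3 * m₀) m₁) 100, fun m hm n hn Z _ hZ C θ hκ hθ hθm hC => ?_⟩
  have hm0 : 3 * m₀ ≤ m := le_trans (le_trans (le_max_left _ _) (le_max_left _ _)) hm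
  have hm1 : m₁ ≤ m := le_trans (le_trans (le_max_right _ _) (le_max_left _ _)) hm
  have hm100 : 100 ≤ m := le_trans (le_max_right _ _) hm
  have hlog := hm₁ m hm1
  obtain ⟨h, hh⟩ : ∃ h, h = m / 6 := ⟨_, rfl⟩
  obtain ⟨M, hM⟩ : ∃ M, M = 3 * h := ⟨_, rfl⟩
  have hMm : m ≤ 3 * M := by omega
  have hmR : (100 : ℝ) ≤ m := by exact_mod_cast hm100
  have hMR : (m : ℝ) / 3 ≤ M := by
    have : (m : ℝ) ≤ 3 * M := by exact_mod_cast hMm
    linarith
  have hM0 : (0 : ℝ) < M := by linarith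
  obtain ⟨Lg, hLg⟩ : ∃ Lg, Lg = Nat.log 2 m := ⟨_, rfl⟩
  have hLgR : (Lg : ℝ) ≤ Real.logb 2 m := by
    rw [hLg]
    exact Real.natLog_le_logb m 2
  -- the treewidth
  have hθ1 : (((θ + 1) * (Lg + 1) : ℕ) : ℝ) ≤ (M : ℝ) ^ (1 - ε / 2) := by
    have e1 : (1 : ℝ) ≤ (m : ℝ) ^ (1 - ε) := Real.one_le_rpow (by linarith) (by linarith)
    have e2 : (θ : ℝ) + 1 ≤ 2 * (m : ℝ) ^ (1 - ε) := by linarith
    have e3 : (m : ℝ) ^ (1 - ε / 2) / 3 ≤ (M : ℝ) ^ (1 - ε / 2) := by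
      calc (m : ℝ) ^ (1 - ε / 2) / 3 ≤ (m : ℝ) ^ (1 - ε / 2) / 3 ^ (1 - ε / 2) := by
            apply div_le_div_of_nonneg_left (by positivity) (by positivity)
            calc (3 : ℝ) ^ (1 - ε / 2) ≤ 3 ^ (1 : ℝ) :=
                  Real.rpow_le_rpow_of_exponent_le (by norm_num) (by linarith)
              _ = 3 := Real.rpow_one 3
        _ = ((m : ℝ) / 3) ^ (1 - ε / 2) := by
            rw [Real.div_rpow (by linarith) (by norm_num)]
        _ ≤ (M : ℝ) ^ (1 - ε / 2) := by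
            apply Real.rpow_le_rpow (by linarith) hMR (by linarith)
    have e4 : (m : ℝ) ^ (1 - ε) * (m : ℝ) ^ (ε / 2) = (m : ℝ) ^ (1 - ε / 2) := by
      rw [← Real.rpow_add (by linarith)]
      congr 1
      ring
    push_cast
    have e5 : (0 : ℝ) ≤ (Lg : ℝ) + 1 := by positivity
    calc ((θ : ℝ) + 1) * ((Lg : ℝ) + 1) ≤ (2 * (m : ℝ) ^ (1 - ε)) * (Real.logb 2 m + 1) := by
          apply mul_le_mul e2 (by linarith) e5 (by positivity)
      _ = (m : ℝ) ^ (1 - ε) * (6 * (Real.logb 2 m + 1)) / 3 := by ring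
      _ ≤ (m : ℝ) ^ (1 - ε) * (m : ℝ) ^ (ε / 2) / 3 := by
          apply div_le_div_of_nonneg_right _ (by norm_num)
          exact mul_le_mul_of_nonneg_left hlog (by linarith)
      _ = (m : ℝ) ^ (1 - ε / 2) / 3 := by rw [e4]
      _ ≤ _ := e3
  by_contra hcon
  push Not at hcon
  -- the number of reads
  have hRM : (C.reads : ℝ) < (ε / 2) / 30 * (M * Real.logb 2 M) := by
    refine lt_of_lt_of_le hcon ?_
    have e1 : Real.logb 2 m / 2 ≤ Real.logb 2 M := by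
      have e2 : Real.sqrt m ≤ M := by
        rw [Real.sqrt_le_iff]
        refine ⟨hM0.le, ?_⟩
        nlinarith
      have e3 : Real.logb 2 (Real.sqrt m) = Real.logb 2 m / 2 := by
        rw [Real.logb, Real.log_sqrt (by linarith), Real.logb]
        ring
      rw [← e3]
      exact Real.logb_le_logb_of_le (by norm_num) (Real.sqrt_pos.2 (by linarith)) e2
    have e4 : 0 ≤ Real.logb 2 m := Real.logb_nonneg (by norm_num) (by linarith)
    have e5 : (m : ℝ) / 3 * (Real.logb 2 m / 2) ≤ M * Real.logb 2 M :=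
      mul_le_mul hMR e1 (by linarith) hM0.le
    calc ε / 360 * (m * Real.logb 2 m) = (ε / 2) / 30 * ((m : ℝ) / 3 * (Real.logb 2 m / 2)) := by
          ring
      _ ≤ _ := mul_le_mul_of_nonneg_left e5 (by positivity)
  obtain ⟨r, hr1, hr2, hr3⟩ := choose_r (m := M) (R := C.reads) (ε := ε / 2) (by positivity)
    (by omega) hRM
  have hnum := hm₀ M (by omega) r ((θ + 1) * (Lg + 1)) hr3 hθ1
  obtain ⟨P, hP⟩ : ∃ P, P = 2 ^ (24 * r) := ⟨_, rfl⟩
  have hP0 : 0 < P := by rw [hP]; positivity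
  obtain ⟨k, hk⟩ : ∃ k, k = h / P := ⟨_, rfl⟩
  obtain ⟨N, hN⟩ : ∃ N, N = M / 2 ^ (24 * r + 1) := ⟨_, rfl⟩
  rw [← hN] at hnum
  have hN1 : 2 * N ≤ 3 * k + 2 := by
    have e1 : N * 2 ^ (24 * r + 1) ≤ M := by rw [hN]; exact Nat.div_mul_le_self _ _
    have e2 : N * 2 ^ (24 * r + 1) = 2 * N * P := by rw [hP, pow_succ]; ring
    have e3 : h < (k + 1) * P := by
      rw [hk, add_mul, one_mul]
      exact Nat.lt_div_mul_add hP0
    have e4 : 2 * N * P < (3 * k + 3) * P := by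
      calc 2 * N * P ≤ M := by rw [← e2]; exact e1
        _ = 3 * h := hM
        _ < 3 * ((k + 1) * P) := by omega
        _ = _ := by ring
    have := lt_of_mul_lt_mul_right e4 (Nat.zero_le P)
    omega
  obtain ⟨K, hK⟩ : ∃ K, K = 10000 * r ^ 2 * (κ + 1) * (θ + 1) := ⟨_, rfl⟩
  have hK1 : 1 ≤ K := by
    rw [hK]
    have : 0 < 10000 * r ^ 2 * (κ + 1) * (θ + 1) := by positivity
    exact this
  obtain ⟨Y, hY⟩ : ∃ Y, Y = K * (Lg + 1) := ⟨_, rfl⟩
  have hY1 : 1 ≤ Y := by rw [hY]; exact Nat.mul_pos hK1 (by omega)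
  have hnum2 : (2 * c + 4) * Y + 1 < N := by
    refine lt_of_le_of_lt ?_ hnum
    have e1 : Y ≤ 10000 * r ^ 2 * (κ + 1) * ((θ + 1) * (Lg + 1) + 1) := by
      rw [hY, hK, mul_assoc (10000 * r ^ 2 * (κ + 1))]
      exact Nat.mul_le_mul_left _ (Nat.le_succ _)
    have e2 := Nat.mul_le_mul_left (2 * c + 4) e1
    omega
  have hkY : (c + 1) * Y + 1 < k := by
    have e1 : (2 * c + 4) * Y = 2 * (c * Y) + 4 * Y := by ring
    have e2 : (c + 1) * Y = c * Y + Y := by ring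
    rw [e1] at hnum2
    rw [e2]
    omega
  have hP4 : 4 ^ (12 * r) = P := by
    rw [hP, show (4 : ℕ) = 2 ^ 2 by norm_num, ← pow_mul]
    congr 1
    ring
  have hkP : 4 ^ (12 * r) * k ≤ h := by
    rw [hP4, hk, mul_comm]
    exact Nat.div_mul_le_self _ _
  have h24 : 24 * r ≤ h := by
    have e1 : 24 * r < 2 ^ (24 * r) := Nat.lt_two_pow_self
    have e2 : P * 1 ≤ P * k := Nat.mul_le_mul_left _ (by omega)
    rw [hP4] at hkP
    rw [← hP] at e1
    omega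
  have hmc : Fintype.card Z ≤ max 2 (m ^ c) := hZ.trans (le_max_right _ _)
  have hb := adj_core (r := r) (h := h) (k := k) (L := max 2 (m ^ c)) hr1 (le_max_left _ _) hn
    (by omega) hmc C hκ hθ (by rw [← hM]; exact hr2) h24 hkP
  rw [← hK] at hb
  have hb2 : 2 ^ k ≤ (max 2 (m ^ c)) ^ K + 1 := by
    rcases hC with hC | hC
    · exact hb.2 hC.1 hC.2
    · exact (hb.1 hC).trans (Nat.le_succ _)
  have hmlt : m ≤ 2 ^ (Lg + 1) := by
    rw [hLg]
    exact (Nat.lt_pow_succ_log_self (by norm_num) m).le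
  have hLp : (max 2 (m ^ c)) ^ K ≤ 2 ^ ((c + 1) * Y) := by
    have e1 : max 2 (m ^ c) ≤ 2 ^ ((c + 1) * (Lg + 1)) := by
      apply max_le
      · calc 2 = 2 ^ 1 := by norm_num
          _ ≤ 2 ^ ((c + 1) * (Lg + 1)) := by
              apply Nat.pow_le_pow_right (by norm_num)
              exact Nat.mul_pos (by omega) (by omega)
      · calc m ^ c ≤ (2 ^ (Lg + 1)) ^ c := Nat.pow_le_pow_left hmlt c
          _ = 2 ^ (c * (Lg + 1)) := by rw [← pow_mul, mul_comm]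
          _ ≤ 2 ^ ((c + 1) * (Lg + 1)) := by
              apply Nat.pow_le_pow_right (by norm_num)
              exact Nat.mul_le_mul_right _ (by omega)
    calc (max 2 (m ^ c)) ^ K ≤ (2 ^ ((c + 1) * (Lg + 1))) ^ K := Nat.pow_le_pow_left e1 K
      _ = 2 ^ ((c + 1) * Y) := by
          rw [← pow_mul, hY]
          congr 1
          ring
  have h9 : 2 ^ ((c + 1) * Y + 2) ≤ 2 ^ k := Nat.pow_le_pow_right (by norm_num) hkY
  have h10 : 2 ^ ((c + 1) * Y + 2) = 4 * 2 ^ ((c + 1) * Y) := by rw [pow_add]; ring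
  have h11 : 1 ≤ 2 ^ ((c + 1) * Y) := Nat.one_le_two_pow
  omega

/-- Random circuits that are always correct. -/
theorem adj_random (c κ : ℕ) (ε : ℝ) (hε : 0 < ε) (hε1 : ε ≤ 1) : ∃ m₀ : ℕ,
    ∀ m ≥ m₀, ∀ n ≥ 2 * m, ∀ (Z : Type) [Fintype Z], Fintype.card Z ≤ m ^ c →
      ∀ (Ω : Type) [Fintype Ω] (p : Ω → ℝ), (∀ ω, 0 ≤ p ω) → ∑ ω, p ω = 1 →
      ∀ (C : Ω → WCirc (Place n m) (ℕ × ℕ) Z) (θ : ℕ), (θ : ℝ) ≤ (m : ℝ) ^ (1 - ε) →
        (∀ ω, (C ω).FanIn κ ∧ (C ω).TreewidthLE θ ∧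
          (((C ω).Unambiguous ∧ ∀ x, IsAdj x → ((C ω).Accepts x ↔ HasTriangle x)) ∨
            (∀ x, IsAdj x → ((C ω).Accepts x ↔ ¬ HasTriangle x)))) →
        ε / 360 * (m * Real.logb 2 m) ≤ ∑ ω, p ω * (C ω).reads := by
  obtain ⟨m₀, hm₀⟩ := adj_superlinear c κ ε hε hε1
  refine ⟨m₀, fun m hm n hn Z _ hZ Ω _ p hp hp1 C θ hθm h => ?_⟩
  calc ε / 360 * (m * Real.logb 2 m) = ∑ ω, p ω * (ε / 360 * (m * Real.logb 2 m)) := by
        rw [← Finset.sum_mul, hp1, one_mul]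
    _ ≤ ∑ ω, p ω * (C ω).reads := by
        apply Finset.sum_le_sum
        intro ω _
        apply mul_le_mul_of_nonneg_left _ (hp ω)
        obtain ⟨h1, h2, h3⟩ := h ω
        exact hm₀ m hm n hn Z hZ (C ω) θ h1 h2 hθm h3

end Pool.Agent.K7.H45.ADJ
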